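import Mathlib
import Pool.Agent.Helper404.HitC

open Polynomial

namespace Pool.Agent.Results.MP_a85dd6_nt.ConstantFactor

/-- The primitive minimal polynomial over `ℤ` (up to sign) of a real algebraic number `α`:
clear the denominators of the minimal polynomial over `ℚ`, then divide by the content. -/
noncomputable def intMinpoly (α : ℝ) : ℤ[X] :=
  (IsLocalization.integerNormalization (nonZeroDivisors ℤ) (minpoly ℚ α)).primPart

/-- The naive height `H(α)`: the largest absolute value of a coefficient of the primitive minimal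
polynomial of `α` over `ℤ`. -/
noncomputable def height (α : ℝ) : ℕ :=
  (intMinpoly α).support.sup fun i => ((intMinpoly α).coeff i).natAbs

/-- The real algebraic numbers `α` of degree exactly `n` with `|ξ - α| < c * H(α) ^ (-(n + 1) τ)`. -/
def approx (n : ℕ) (τ c ξ : ℝ) : Set ℝ :=
  {α : ℝ | IsAlgebraic ℚ α ∧ (minpoly ℚ α).natDegree = n ∧
    |ξ - α| < c * (height α : ℝ) ^ (-(((n : ℝ) + 1) * τ))}

/-- Sanity check: `intMinpoly α` is the primitive irreducible integer polynomial vanishing at `α`,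
and its degree is the degree of `α`. -/
lemma intMinpoly_spec (α : ℝ) (hα : IsAlgebraic ℚ α) :
    (intMinpoly α).IsPrimitive ∧ Irreducible (intMinpoly α) ∧ aeval α (intMinpoly α) = 0 ∧
      (intMinpoly α).natDegree = (minpoly ℚ α).natDegree := by
  have hint : IsIntegral ℚ α := hα.isIntegral
  have hirr : Irreducible (minpoly ℚ α) := minpoly.irreducible hint
  have hroot : aeval α (minpoly ℚ α) = 0 := minpoly.aeval ℚ α
  unfold intMinpoly
  generalize minpoly ℚ α = m at hirr hroot ⊢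
  obtain ⟨b, hbm, hb⟩ := IsLocalization.integerNormalization_spec (nonZeroDivisors ℤ) m
  generalize IsLocalization.integerNormalization (nonZeroDivisors ℤ) m = I at hb ⊢
  have hb0 : (b : ℤ) ≠ 0 := nonZeroDivisors.ne_zero hbm
  have hbQ : ((b : ℤ) : ℚ) ≠ 0 := by exact_mod_cast hb0
  have hb' : I.map (Int.castRingHom ℚ) = C ((b : ℤ) : ℚ) * m := by
    have h1 : I.map (Int.castRingHom ℚ) = I.map (algebraMap ℤ ℚ) := rfl
    rw [h1, hb, ← smul_eq_C_mul]
    ext k
    simp
  have hI0 : I ≠ 0 := by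
    intro h
    rw [h, Polynomial.map_zero] at hb'
    exact (mul_ne_zero (C_ne_zero.2 hbQ) hirr.ne_zero) hb'.symm
  have hprim : I.primPart.IsPrimitive := isPrimitive_primPart I
  have hcont : I = C I.content * I.primPart := I.eq_C_content_mul_primPart
  have hc0 : I.content ≠ 0 := content_eq_zero_iff.not.2 hI0
  have hcQ : ((I.content : ℤ) : ℚ) ≠ 0 := by exact_mod_cast hc0
  have hmap : I.primPart.map (Int.castRingHom ℚ) = C (((b : ℤ) : ℚ) / (I.content : ℚ)) * m := by
    have h1 : I.map (Int.castRingHom ℚ) =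
        C ((I.content : ℤ) : ℚ) * I.primPart.map (Int.castRingHom ℚ) := by
      conv_lhs => rw [hcont]
      rw [Polynomial.map_mul, map_C]
      rfl
    have h2 : C ((I.content : ℤ) : ℚ) * I.primPart.map (Int.castRingHom ℚ) =
        C ((I.content : ℤ) : ℚ) * (C (((b : ℤ) : ℚ) / (I.content : ℚ)) * m) := by
      rw [← h1, hb', ← mul_assoc, ← C_mul, mul_div_cancel₀ _ hcQ]
    exact mul_left_cancel₀ (C_ne_zero.2 hcQ) h2
  have hu : ((b : ℤ) : ℚ) / (I.content : ℚ) ≠ 0 := div_ne_zero hbQ hcQ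
  have hassoc : Associated m (I.primPart.map (Int.castRingHom ℚ)) := by
    rw [hmap]
    exact (associated_unit_mul_right m _ (isUnit_C.2 (isUnit_iff_ne_zero.2 hu)))
  refine ⟨hprim, ?_, ?_, ?_⟩
  · rw [IsPrimitive.Int.irreducible_iff_irreducible_map_cast hprim]
    exact hassoc.irreducible hirr
  · have h1 : aeval α (I.primPart.map (Int.castRingHom ℚ)) = 0 := by
      rw [hmap, map_mul, hroot, mul_zero]
    rw [← h1]; exact (aeval_map_algebraMap ℚ α I.primPart).symm
  · rw [← natDegree_map_eq_of_injective (RingHom.injective_int (Int.castRingHom ℚ)) I.primPart, hmap,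
      natDegree_C_mul hu]

/-- Sanity check: any irreducible integer polynomial of positive degree vanishing at `α` is
`intMinpoly α` up to sign, so it has height `height α` and degree `deg α`. -/
lemma of_irreducible (α : ℝ) (P : ℤ[X]) (hP : Irreducible P) (hd : P.natDegree ≠ 0)
    (hr : aeval α P = 0) : IsAlgebraic ℚ α ∧ (minpoly ℚ α).natDegree = P.natDegree ∧
      Pool.Agent.Helper404.HP P = height α := by
  have halg : IsAlgebraic ℚ α :=
    ⟨P.map (Int.castRingHom ℚ), (Polynomial.map_ne_zero_iff (RingHom.injective_int _)).2 hP.ne_zero,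
      by rw [← hr]; exact aeval_map_algebraMap ℚ α P⟩
  obtain ⟨_, h2, h3, h4⟩ := intMinpoly_spec α halg
  have hmd : (intMinpoly α).natDegree ≠ 0 := by
    rw [h4]; exact (minpoly.natDegree_pos halg.isIntegral).ne'
  rcases Pool.Agent.Helper404.uniq_poly P (intMinpoly α) hP h2 hd hmd α hr h3 with h | h
  · refine ⟨halg, by rw [← h4, h], ?_⟩
    unfold height; rw [h]; rfl
  · refine ⟨halg, by rw [← h4, h, natDegree_neg], ?_⟩
    rw [← Pool.Agent.Helper404.HP_neg, ← h]; rfl

lemma approx_eq (n : ℕ) (hn : 2 ≤ n) (τ c ξ : ℝ) : approx n τ c ξ =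
    {α : ℝ | ∃ P : ℤ[X], Irreducible P ∧ aeval α P = 0 ∧ P.natDegree = n ∧
      |ξ - α| < c * (Pool.Agent.Helper404.HP P : ℝ) ^ (-(((n : ℝ) + 1) * τ))} := by
  ext α
  constructor
  · rintro ⟨h1, h2, h3⟩
    obtain ⟨_, h4, h5, h6⟩ := intMinpoly_spec α h1
    exact ⟨intMinpoly α, h4, h5, h6.trans h2, h3⟩
  · rintro ⟨P, h1, h2, h3, h4⟩
    obtain ⟨h5, h6, h7⟩ := of_irreducible α P h1 (by omega) h2
    exact ⟨h5, h6.trans h3, by rw [← h7]; exact h4⟩

/-- For every `n ≥ 2`, `0 < c₁ < c₂` and `τ > 1` there is a real `ξ` such that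
`|ξ - α| < c₂ H(α)^(-(n+1)τ)` for infinitely many real algebraic `α` of degree exactly `n`, and
`|ξ - α| < c₁ H(α)^(-(n+1)τ)` for only finitely many real algebraic `α` of degree exactly `n`. -/
theorem result (n : ℕ) (hn : 2 ≤ n) (c₁ c₂ τ : ℝ) (hc₁ : 0 < c₁) (hc : c₁ < c₂) (hτ : 1 < τ) :
    ∃ ξ : ℝ, (approx n τ c₂ ξ).Infinite ∧ (approx n τ c₁ ξ).Finite := by
  have hn0 : (0 : ℝ) < (n : ℝ) + 1 := by positivity
  have ht : (n : ℝ) + 1 < ((n : ℝ) + 1) * τ := by
    calc (n : ℝ) + 1 = ((n : ℝ) + 1) * 1 := (mul_one _).symm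
      _ < ((n : ℝ) + 1) * τ := mul_lt_mul_of_pos_left hτ hn0
  obtain ⟨ξ, h1, h2⟩ := Pool.Agent.Helper404.main n hn _ ht c₁ c₂ hc₁ hc
  refine ⟨ξ, ?_, ?_⟩
  · rw [approx_eq n hn]; exact h1
  · rw [approx_eq n hn]; exact h2

end Pool.Agent.Results.MP_a85dd6_nt.ConstantFactor
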